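import Mathlib

/-!
# A non-amenable group with a non-regular convolution operator on `ℓ²`

Let `G = SL(2, ℤ) × H`, where `H` is the direct sum of countably many groups of order two with
generators `a 0, a 1, ...`. The operators `(1 + i L (a j)) / √2` are unitary, where `L` is left
translation on `ℓ²(G)`. The sum `T` of `r ^ n` times the product of the first `n` of them, with
`r = 9 / 10`, commutes with the right translations and is not a linear combination of positive
operators, since its kernel is not summable on the finite subgroups of `H`.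
-/

set_option autoImplicit false

namespace Pool.Agent.Results.MP_b39683_an.NonAmenableNonRegular

open Finset

section Defs

/-- The space `ℓ²(G)`. -/
abbrev H2 (G : Type) : Type := lp (fun _ : G => ℂ) 2

/-- The bounded operators on `ℓ²(G)`. -/
abbrev Op (G : Type) : Type := H2 G →L[ℂ] H2 G

/-- The function `f` has only nonnegative (real) values. -/
def IsNonneg {G : Type} (f : H2 G) : Prop := ∀ s, 0 ≤ (f s).re ∧ (f s).im = 0

/-- An operator is positive if it maps nonnegative functions to nonnegative functions. -/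
def IsPos {G : Type} (P : Op G) : Prop := ∀ f, IsNonneg f → IsNonneg (P f)

/-- An operator is regular if it is a complex linear combination of positive operators. -/
def IsRegular {G : Type} (T : Op G) : Prop :=
  ∃ (n : ℕ) (c : Fin n → ℂ) (P : Fin n → Op G), (∀ i, IsPos (P i)) ∧
    ∀ f s, T f s = ∑ i, c i * P i f s

/-- The operator `T` commutes with all right translations `f ↦ f (· * t)`: whenever `f'` is the
right translate of `f` by `t`, then `T f'` is the right translate of `T f` by `t`. -/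
def CommutesWithRightTranslations {G : Type} [Group G] (T : Op G) : Prop :=
  ∀ (t : G) (f f' : H2 G), (∀ s, f' s = f (s * t)) → ∀ s, T f' s = T f (s * t)

/-- A (discrete) group is amenable if there is a finitely additive left-invariant probability
measure defined on all its subsets. -/
def IsAmenable (G : Type) [Group G] : Prop :=
  ∃ μ : Set G → ℝ, (∀ A, 0 ≤ μ A) ∧ μ Set.univ = 1 ∧
    (∀ A B, Disjoint A B → μ (A ∪ B) = μ A + μ B) ∧ ∀ (g : G) A, μ ((fun x => g * x) '' A) = μ A

end Defs

section Perm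

variable {G : Type} [Group G]

/-- Composition with a permutation as an operator on `ℓ²`. -/
noncomputable def perm (e : Equiv.Perm G) : H2 G →L[ℂ] H2 G :=
  LinearMap.mkContinuous
    { toFun := fun f => ⟨fun s => f (e s), by
        have h1 := lp.memℓp f
        show Memℓp (fun s => f (e s)) 2
        rw [memℓp_gen_iff (by norm_num)] at h1 ⊢
        exact (e.summable_iff (f := fun s => ‖f s‖ ^ (2 : ENNReal).toReal)).2 h1⟩
      map_add' := fun _ _ => rfl
      map_smul' := fun _ _ => rfl } 1 (fun f => by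
    rw [one_mul]
    apply le_of_eq
    rw [lp.norm_eq_tsum_rpow (by norm_num), lp.norm_eq_tsum_rpow (by norm_num)]
    congr 1
    exact e.tsum_eq (fun s => ‖f s‖ ^ (2 : ENNReal).toReal))

theorem perm_apply (e : Equiv.Perm G) (f : H2 G) (s : G) : perm e f s = f (e s) := rfl

theorem norm_perm (e : Equiv.Perm G) (f : H2 G) : ‖perm e f‖ = ‖f‖ := by
  rw [lp.norm_eq_tsum_rpow (by norm_num), lp.norm_eq_tsum_rpow (by norm_num)]
  congr 1
  exact e.tsum_eq (fun s => ‖f s‖ ^ (2 : ENNReal).toReal)

/-- Left translation by `h`. -/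
noncomputable def L (h : G) : H2 G →L[ℂ] H2 G := perm (Equiv.mulLeft h⁻¹)

/-- Right translation by `t`. -/
noncomputable def R (t : G) : H2 G →L[ℂ] H2 G := perm (Equiv.mulRight t)

theorem L_apply (h : G) (f : H2 G) (s : G) : L h f s = f (h⁻¹ * s) := rfl

theorem R_apply (t : G) (f : H2 G) (s : G) : R t f s = f (s * t) := rfl

theorem L_R (h t : G) : L h * R t = R t * L h := by
  ext f s
  show L h (R t f) s = R t (L h f) s
  rw [L_apply, R_apply, R_apply, L_apply, mul_assoc]

variable [DecidableEq G]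

/-- The unit vectors. -/
noncomputable def dl (t : G) : H2 G := lp.single 2 t (1 : ℂ)

theorem dl_apply (s t : G) : dl t s = if s = t then (1 : ℂ) else 0 := by
  unfold dl
  by_cases h : s = t
  · subst h; simp
  · rw [if_neg h, lp.single_apply_ne _ _ _ h]

theorem norm_dl (t : G) : ‖dl t‖ = 1 := by
  unfold dl
  rw [lp.norm_single (by norm_num), norm_one]

theorem L_dl (h t : G) : L h (dl t) = dl (h * t) := by
  ext s
  rw [L_apply, dl_apply, dl_apply]
  by_cases hs : s = h * t
  · rw [if_pos hs, if_pos (by rw [hs]; group)]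
  · rw [if_neg hs, if_neg (fun h' => hs (by rw [← h']; group))]

/-- Positive operators have bounded row sums on finite squares; this passes to regular
operators. -/
def HasBound (T : H2 G →L[ℂ] H2 G) : Prop :=
  ∃ K : ℝ, ∀ S : Finset G, ∑ s ∈ S, ∑ t ∈ S, ‖T (dl t) s‖ ≤ K * S.card

theorem norm_sum_dl (S : Finset G) : ‖∑ t ∈ S, dl t‖ ^ 2 = S.card := by
  have h1 : ‖∑ t ∈ S, (dl t : H2 G)‖ ^ (2 : ENNReal).toReal = ∑ t ∈ S, ‖(1 : ℂ)‖ ^ (2 : ENNReal).toReal :=
    lp.norm_sum_single (p := 2) (by norm_num) (fun _ => (1 : ℂ)) S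
  simpa using h1

theorem hasBound_of_isPos {P : H2 G →L[ℂ] H2 G} (hP : IsPos P) : HasBound P := by
  refine ⟨‖P‖, fun S => ?_⟩
  set u : H2 G := ∑ t ∈ S, dl t with hu
  have hnonneg : ∀ t s, 0 ≤ (P (dl t) s).re ∧ (P (dl t) s).im = 0 := by
    intro t
    apply hP
    intro s
    rw [dl_apply]
    split_ifs <;> simp
  have h1 : ∀ s t, ‖P (dl t) s‖ = (P (dl t) s).re := by
    intro s t
    have h2 : P (dl t) s = (((P (dl t) s).re : ℝ) : ℂ) := by
      apply Complex.ext
      · simp
      · simp [(hnonneg t s).2]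
    rw [h2, Complex.norm_real, Complex.ofReal_re, Real.norm_eq_abs, abs_of_nonneg (hnonneg t s).1]
  have h2 : ∑ s ∈ S, ∑ t ∈ S, ‖P (dl t) s‖ = (∑ s ∈ S, P u s).re := by
    rw [Complex.re_sum]
    refine sum_congr rfl fun s _ => ?_
    rw [hu, map_sum, lp.coeFn_sum, Finset.sum_apply, Complex.re_sum]
    exact sum_congr rfl fun t _ => h1 s t
  have h3 : ∑ s ∈ S, P u s = inner ℂ u (P u) := by
    rw [hu, sum_inner, ← hu]
    refine sum_congr rfl fun s _ => ?_
    unfold dl
    rw [lp.inner_single_left]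
    simp
  rw [h2, h3]
  calc (inner ℂ u (P u)).re ≤ ‖inner ℂ u (P u)‖ := Complex.re_le_norm _
    _ ≤ ‖u‖ * ‖P u‖ := norm_inner_le_norm _ _
    _ ≤ ‖u‖ * (‖P‖ * ‖u‖) := by gcongr; exact P.le_opNorm u
    _ = ‖P‖ * ‖u‖ ^ 2 := by ring
    _ = ‖P‖ * S.card := by rw [hu, norm_sum_dl]

theorem hasBound_of_isRegular {T : H2 G →L[ℂ] H2 G} (hT : IsRegular T) : HasBound T := by
  obtain ⟨n, c, P, hP, hTP⟩ := hT
  choose K hK using fun i => hasBound_of_isPos (hP i)
  refine ⟨∑ i, ‖c i‖ * K i, fun S => ?_⟩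
  calc ∑ s ∈ S, ∑ t ∈ S, ‖T (dl t) s‖
      ≤ ∑ s ∈ S, ∑ t ∈ S, ∑ i, ‖c i‖ * ‖P i (dl t) s‖ := by
        refine sum_le_sum fun s _ => sum_le_sum fun t _ => ?_
        rw [hTP]
        refine (norm_sum_le _ _).trans (le_of_eq (sum_congr rfl fun i _ => norm_mul _ _))
    _ = ∑ i, ‖c i‖ * ∑ s ∈ S, ∑ t ∈ S, ‖P i (dl t) s‖ := by
        have h1 : ∀ s ∈ S, ∑ t ∈ S, ∑ i, ‖c i‖ * ‖P i (dl t) s‖ =
            ∑ i, ‖c i‖ * ∑ t ∈ S, ‖P i (dl t) s‖ := by
          intro s _
          rw [sum_comm]
          exact sum_congr rfl fun i _ => (mul_sum _ _ _).symm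
        rw [sum_congr rfl h1, sum_comm]
        exact sum_congr rfl fun i _ => (mul_sum _ _ _).symm
    _ ≤ ∑ i, ‖c i‖ * (K i * S.card) := by
        refine sum_le_sum fun i _ => ?_
        gcongr
        exact hK i S
    _ = (∑ i, ‖c i‖ * K i) * S.card := by
        rw [sum_mul]
        exact sum_congr rfl fun i _ => by ring

/-- For an isometric involution `A` the operator `(1 + i A) / √2` is isometric. -/
theorem norm_unitary {E : Type} [NormedAddCommGroup E] [InnerProductSpace ℂ E] (A : E →L[ℂ] E)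
    (hA : ∀ f, ‖A f‖ = ‖f‖) (hAA : ∀ f, A (A f) = f) (f : E) :
    ‖f + Complex.I • A f‖ ^ 2 = 2 * ‖f‖ ^ 2 := by
  have h1 : ‖f + Complex.I • A f‖ = ‖f - Complex.I • A f‖ := by
    have h2 : f - Complex.I • A f = -(Complex.I • A (f + Complex.I • A f)) := by
      rw [map_add, map_smul, hAA, smul_add, smul_smul, Complex.I_mul_I, neg_smul, one_smul]
      abel
    rw [h2, norm_neg, norm_smul, Complex.norm_I, one_mul, hA]
  have h3 := parallelogram_law_with_norm ℂ f (Complex.I • A f)
  rw [← h1, norm_smul, Complex.norm_I, one_mul, hA] at h3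
  linarith

end Perm

section Group

/-- The direct sum of countably many groups of order two, written multiplicatively. -/
abbrev H : Type := Multiplicative (ℕ →₀ ZMod 2)

/-- The group `SL(2, ℤ) × H`. -/
abbrev G : Type := Matrix.SpecialLinearGroup (Fin 2) ℤ × H

/-- The element of `H` given by a finite set. -/
noncomputable def hA (A : Finset ℕ) : H := Multiplicative.ofAdd (Finsupp.indicator A (fun _ _ => (1 : ZMod 2)))

/-- The element of `G` given by a finite set. -/
noncomputable def gA (A : Finset ℕ) : G := (1, hA A)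

theorem toAdd_hA (A : Finset ℕ) (j : ℕ) :
    (Multiplicative.toAdd (hA A)) j = if j ∈ A then (1 : ZMod 2) else 0 := by
  unfold hA
  rw [toAdd_ofAdd, Finsupp.indicator_apply]
  split_ifs <;> rfl

theorem hA_injective : Function.Injective hA := by
  intro A B h
  ext j
  have h1 := toAdd_hA A j
  rw [h, toAdd_hA] at h1
  by_cases hA : j ∈ A <;> by_cases hB : j ∈ B <;> simp_all

theorem gA_injective : Function.Injective gA := by
  intro A B h
  exact hA_injective (congrArg Prod.snd h)

theorem gA_mul (A B : Finset ℕ) : gA A * gA B = gA (symmDiff A B) := by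
  unfold gA
  rw [Prod.mk_mul_mk, one_mul]
  congr 1
  apply Multiplicative.toAdd.injective
  ext j
  have h1 : (Multiplicative.toAdd (hA A * hA B)) j =
    (Multiplicative.toAdd (hA A)) j + (Multiplicative.toAdd (hA B)) j := rfl
  rw [h1, toAdd_hA, toAdd_hA, toAdd_hA]
  simp only [Finset.mem_symmDiff]
  by_cases hA : j ∈ A <;> by_cases hB : j ∈ B <;> simp [hA, hB]
  rfl

theorem gA_mul_self (A : Finset ℕ) : gA A * gA A = 1 := by
  rw [gA_mul, symmDiff_self]
  have : gA ⊥ = 1 := by
    unfold gA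
    have h1 : hA ⊥ = 1 := by
      apply Multiplicative.toAdd.injective
      ext j
      rw [toAdd_hA]
      simp
    rw [h1]; rfl
  exact this

theorem gA_empty : gA ∅ = 1 := by
  have := gA_mul_self ∅
  rw [gA_mul, symmDiff_self] at this
  exact this

theorem gA_insert {n : ℕ} {A : Finset ℕ} (h : n ∉ A) : gA {n} * gA A = gA (insert n A) := by
  rw [gA_mul]
  congr 1
  ext j
  rw [Finset.mem_symmDiff, Finset.mem_singleton, Finset.mem_insert]
  constructor
  · rintro (⟨h1, -⟩ | ⟨h1, -⟩)
    · exact Or.inl h1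
    · exact Or.inr h1
  · rintro (h1 | h1)
    · exact Or.inl ⟨h1, by rw [h1]; exact h⟩
    · exact Or.inr ⟨h1, fun h2 => h (by rw [← h2]; exact h1)⟩

/-- The number `1 / √2`. -/
noncomputable def κ : ℝ := (Real.sqrt 2)⁻¹

theorem κ_pos : 0 < κ := by unfold κ; positivity

theorem κ_sq : κ ^ 2 = 1 / 2 := by
  unfold κ
  rw [inv_pow, Real.sq_sqrt (by norm_num)]
  norm_num

/-- The products of the unitary operators `(1 + i L (a j)) / √2`. -/
noncomputable def V : ℕ → (H2 G →L[ℂ] H2 G)
  | 0 => 1
  | n + 1 => (κ : ℂ) • ((1 + Complex.I • L (gA {n})) * V n)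

theorem V_succ_apply (n : ℕ) (f : H2 G) :
    V (n + 1) f = (κ : ℂ) • (V n f + Complex.I • L (gA {n}) (V n f)) := rfl

theorem L_L (n : ℕ) (f : H2 G) : L (gA {n}) (L (gA {n}) f) = f := by
  ext s
  rw [L_apply, L_apply, ← mul_assoc, ← mul_inv_rev, gA_mul_self, inv_one, one_mul]

theorem norm_V (n : ℕ) (f : H2 G) : ‖V n f‖ = ‖f‖ := by
  induction n with
  | zero => rfl
  | succ n ih =>
    rw [V_succ_apply, norm_smul, Complex.norm_real, Real.norm_eq_abs, abs_of_pos κ_pos]
    have h1 := norm_unitary (L (gA {n})) (fun f => norm_perm _ f) (L_L n) (V n f)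
    have h2 : (κ * ‖V n f + Complex.I • L (gA {n}) (V n f)‖) ^ 2 = ‖f‖ ^ 2 := by
      rw [mul_pow, h1, κ_sq, ih]; ring
    have h3 : 0 ≤ κ * ‖V n f + Complex.I • L (gA {n}) (V n f)‖ := by
      have := κ_pos; positivity
    exact (pow_left_inj₀ h3 (norm_nonneg _) two_ne_zero).1 h2

theorem norm_V_le (n : ℕ) : ‖V n‖ ≤ 1 :=
  ContinuousLinearMap.opNorm_le_bound _ zero_le_one fun f => by rw [norm_V, one_mul]

theorem V_R (n : ℕ) (t : G) : V n * R t = R t * V n := by
  induction n with
  | zero => show 1 * R t = R t * 1; rw [one_mul, mul_one]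
  | succ n ih =>
    show ((κ : ℂ) • ((1 + Complex.I • L (gA {n})) * V n)) * R t =
      R t * ((κ : ℂ) • ((1 + Complex.I • L (gA {n})) * V n))
    have h1 : (1 + Complex.I • L (gA {n})) * R t = R t * (1 + Complex.I • L (gA {n})) := by
      rw [add_mul, mul_add, one_mul, mul_one, smul_mul_assoc, mul_smul_comm, L_R]
    rw [smul_mul_assoc, mul_smul_comm, mul_assoc, ih, ← mul_assoc, h1, mul_assoc]

theorem V_dl (n : ℕ) (t : G) : V n (dl t) =
    ((κ : ℂ) ^ n) • ∑ A ∈ (range n).powerset, Complex.I ^ A.card • dl (gA A * t) := by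
  induction n with
  | zero =>
    rw [range_zero, powerset_empty, sum_singleton, card_empty, pow_zero, pow_zero, one_smul,
      one_smul, gA_empty, one_mul]
    rfl
  | succ n ih =>
    rw [V_succ_apply, ih, range_add_one, sum_powerset_insert (notMem_range_self)]
    have h1 : L (gA {n}) (((κ : ℂ) ^ n) • ∑ A ∈ (range n).powerset,
        Complex.I ^ A.card • dl (gA A * t)) =
        ((κ : ℂ) ^ n) • ∑ A ∈ (range n).powerset, Complex.I ^ A.card • dl (gA (insert n A) * t) := by
      rw [map_smul, map_sum]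
      congr 1
      refine sum_congr rfl fun A hA => ?_
      have hn : n ∉ A := fun h => notMem_range_self (mem_powerset.1 hA h)
      rw [map_smul, L_dl, ← mul_assoc, gA_insert hn]
    rw [h1, smul_comm Complex.I, ← smul_add, smul_smul, ← pow_succ']
    congr 2
    rw [smul_sum]
    refine sum_congr rfl fun A hA => ?_
    have hn : n ∉ A := fun h => notMem_range_self (mem_powerset.1 hA h)
    rw [card_insert_of_notMem hn, smul_smul, pow_succ']

theorem V_coef (n : ℕ) (t : G) (B : Finset ℕ) : V n (dl t) (gA B * t) =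
    ((κ : ℂ) ^ n) * if B ⊆ range n then Complex.I ^ B.card else 0 := by
  rw [V_dl, lp.coeFn_smul, Pi.smul_apply, smul_eq_mul, lp.coeFn_sum, Finset.sum_apply]
  congr 1
  have h1 : ∀ A ∈ (range n).powerset, (Complex.I ^ A.card • (dl (gA A * t) : H2 G)) (gA B * t) =
      if A = B then Complex.I ^ B.card else 0 := by
    intro A _
    rw [lp.coeFn_smul, Pi.smul_apply, smul_eq_mul, dl_apply]
    by_cases hAB : A = B
    · rw [if_pos hAB, hAB, if_pos rfl, mul_one]
    · rw [if_neg hAB, if_neg (fun h => hAB (gA_injective (mul_right_cancel h)).symm), mul_zero]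
  rw [sum_congr rfl h1, sum_ite_eq']
  simp only [mem_powerset]

/-- The ratio of the weights. -/
noncomputable def r : ℝ := 9 / 10

theorem summable_V : Summable fun n : ℕ => ((r : ℂ) ^ n) • V n := by
  refine Summable.of_norm_bounded (g := fun n => r ^ n)
    (summable_geometric_of_lt_one (by unfold r; norm_num) (by unfold r; norm_num)) fun n => ?_
  rw [norm_smul, norm_pow, Complex.norm_real, Real.norm_eq_abs,
    abs_of_pos (by unfold r; norm_num : (0 : ℝ) < r)]
  exact mul_le_of_le_one_right (by unfold r; positivity) (norm_V_le n)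

/-- The operator. -/
noncomputable def T : H2 G →L[ℂ] H2 G := ∑' n : ℕ, ((r : ℂ) ^ n) • V n

theorem T_R (t : G) : T * R t = R t * T := by
  unfold T
  rw [← summable_V.tsum_mul_right, ← summable_V.tsum_mul_left]
  congr 1
  funext n
  rw [smul_mul_assoc, mul_smul_comm, V_R]

theorem commutes_T : CommutesWithRightTranslations T := by
  intro t f f' h s
  have h1 : f' = R t f := by
    ext s
    rw [h, R_apply]
  have h2 : T (R t f) = R t (T f) := congrArg (fun X : H2 G →L[ℂ] H2 G => X f) (T_R t)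
  rw [h1, h2, R_apply]

/-- The functional `X ↦ (X (dl t)) s`. -/
noncomputable def coefC (s t : G) : (H2 G →L[ℂ] H2 G) →L[ℂ] ℂ :=
  LinearMap.mkContinuous
    { toFun := fun X => X (dl t) s
      map_add' := fun _ _ => rfl
      map_smul' := fun _ _ => rfl } 1 (fun X => by
    rw [one_mul]
    calc ‖X (dl t) s‖ ≤ ‖X (dl t)‖ := lp.norm_apply_le_norm (by norm_num) _ _
      _ ≤ ‖X‖ * ‖(dl t : H2 G)‖ := X.le_opNorm _
      _ = ‖X‖ := by rw [norm_dl, mul_one])

theorem T_coef (t : G) (B : Finset ℕ) : HasSum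
    (fun n : ℕ => Complex.I ^ B.card * (((r * κ) ^ n * if B ⊆ range n then 1 else 0 : ℝ) : ℂ))
    (T (dl t) (gA B * t)) := by
  have h1 := (coefC (gA B * t) t).hasSum summable_V.hasSum
  have h2 : (fun n : ℕ => Complex.I ^ B.card *
      (((r * κ) ^ n * if B ⊆ range n then 1 else 0 : ℝ) : ℂ)) =
      fun n => (coefC (gA B * t) t) (((r : ℂ) ^ n) • V n) := by
    funext n
    rw [map_smul]
    have : (coefC (gA B * t) t) (V n) = V n (dl t) (gA B * t) := rfl
    rw [this, V_coef, smul_eq_mul]
    split_ifs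
    · push_cast; ring
    · push_cast; ring
  rw [h2]
  exact h1

theorem T_lower {m : ℕ} {B : Finset ℕ} (hB : B ⊆ range m) (t : G) :
    (r * κ) ^ m ≤ ‖T (dl t) (gA B * t)‖ := by
  have hr : 0 < r := by unfold r; norm_num
  have hκ := κ_pos
  have hκ1 : κ < 1 := by
    have := κ_sq
    nlinarith
  have hrk : r * κ < 1 := by
    have : r < 1 := by unfold r; norm_num
    nlinarith
  have h1 := T_coef t B
  have hs : Summable fun n : ℕ => (r * κ) ^ n * if B ⊆ range n then (1 : ℝ) else 0 := by
    refine Summable.of_nonneg_of_le (fun n => by positivity) (fun n => ?_)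
      (summable_geometric_of_lt_one (by positivity) hrk)
    split_ifs
    · rw [mul_one]
    · rw [mul_zero]; positivity
  have h2 : HasSum
    (fun n : ℕ => Complex.I ^ B.card * (((r * κ) ^ n * if B ⊆ range n then 1 else 0 : ℝ) : ℂ))
    (Complex.I ^ B.card * ((∑' n : ℕ, (r * κ) ^ n * if B ⊆ range n then (1 : ℝ) else 0 : ℝ) : ℂ)) :=
    (Complex.hasSum_ofReal.2 hs.hasSum).mul_left _
  rw [h1.unique h2, norm_mul, norm_pow, Complex.norm_I, one_pow, one_mul, Complex.norm_real,
    Real.norm_eq_abs, abs_of_nonneg (tsum_nonneg fun n => by positivity)]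
  calc (r * κ) ^ m = (r * κ) ^ m * if B ⊆ range m then (1 : ℝ) else 0 := by rw [if_pos hB, mul_one]
    _ ≤ _ := hs.le_tsum m fun n _ => by positivity

theorem not_regular : ¬ IsRegular T := by
  intro h
  obtain ⟨K, hK⟩ := hasBound_of_isRegular h
  have hr : 0 < r := by unfold r; norm_num
  have hκ := κ_pos
  have key : ∀ m : ℕ, (2 * (r * κ)) ^ m ≤ K := by
    intro m
    set S : Finset G := (range m).powerset.image gA with hS
    have hcard : (S.card : ℝ) = 2 ^ m := by
      rw [hS, card_image_of_injective _ gA_injective, card_powerset, card_range]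
      push_cast; rfl
    have h1 := hK S
    have h2 : ∀ s ∈ S, ∀ t ∈ S, (r * κ) ^ m ≤ ‖T (dl t) s‖ := by
      intro s hs t ht
      rw [hS, mem_image] at hs ht
      obtain ⟨C, hC, rfl⟩ := hs
      obtain ⟨D, hD, rfl⟩ := ht
      have h3 : gA C = gA (symmDiff C D) * gA D := by
        rw [gA_mul, symmDiff_symmDiff_cancel_right]
      rw [h3]
      apply T_lower
      intro j hj
      rw [Finset.mem_symmDiff] at hj
      rcases hj with ⟨h4, -⟩ | ⟨h4, -⟩
      · exact mem_powerset.1 hC h4
      · exact mem_powerset.1 hD h4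
    have h3 : (S.card : ℝ) * ((S.card : ℝ) * (r * κ) ^ m) ≤ ∑ s ∈ S, ∑ t ∈ S, ‖T (dl t) s‖ := by
      calc (S.card : ℝ) * ((S.card : ℝ) * (r * κ) ^ m) = ∑ s ∈ S, ∑ t ∈ S, (r * κ) ^ m := by
            rw [sum_const, sum_const, nsmul_eq_mul, nsmul_eq_mul]
        _ ≤ _ := sum_le_sum fun s hs => sum_le_sum fun t ht => h2 s hs t ht
    have h4 : 0 < (S.card : ℝ) := by rw [hcard]; positivity
    have h5 : (S.card : ℝ) * ((S.card : ℝ) * (r * κ) ^ m) ≤ (S.card : ℝ) * K := by
      linarith
    have h6 := le_of_mul_le_mul_left h5 h4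
    rw [hcard, ← mul_pow] at h6
    exact h6
  have h1 : 1 < 2 * (r * κ) := by
    have h2 : 1 < (2 * (r * κ)) ^ 2 := by
      rw [mul_pow, mul_pow, κ_sq]; unfold r; norm_num
    by_contra h3
    push Not at h3
    have h4 : (2 * (r * κ)) ^ 2 ≤ 1 := pow_le_one₀ (by positivity) h3
    linarith
  obtain ⟨m, hm⟩ := pow_unbounded_of_one_lt K h1
  linarith [key m]

end Group

section NonAmenable

/-- A set with infinitely many pairwise disjoint left translates is a null set for an invariant
mean. -/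
theorem null {μ : Set G → ℝ} (hpos : ∀ A, 0 ≤ μ A) (hone : μ Set.univ = 1)
    (hadd : ∀ A B, Disjoint A B → μ (A ∪ B) = μ A + μ B)
    (hinv : ∀ (g : G) A, μ ((fun x => g * x) '' A) = μ A)
    (A : Set G) (g : ℕ → G) (hdisj : ∀ s i j, g i * s ∈ A → g j * s ∈ A → i = j) :
    μ A = 0 := by
  have key : ∀ n : ℕ, μ {s | ∃ i < n, g i * s ∈ A} = n * μ A := by
    intro n
    induction n with
    | zero =>
      have h1 : {s | ∃ i < 0, g i * s ∈ A} = (∅ : Set G) := by
        ext s; simp
      have h2 := hadd ∅ ∅ (by simp)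
      rw [Set.union_empty] at h2
      rw [h1, Nat.cast_zero, zero_mul]
      linarith
    | succ n ih =>
      have h1 : {s | ∃ i < n + 1, g i * s ∈ A} = {s | ∃ i < n, g i * s ∈ A} ∪ {s | g n * s ∈ A} := by
        ext s
        constructor
        · rintro ⟨i, hi, hs⟩
          rcases Nat.lt_succ_iff_lt_or_eq.1 hi with h | h
          · exact Or.inl ⟨i, h, hs⟩
          · exact Or.inr (by rw [← h]; exact hs)
        · rintro (⟨i, hi, hs⟩ | hs)
          · exact ⟨i, by omega, hs⟩
          · exact ⟨n, by omega, hs⟩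
      have h2 : Disjoint {s | ∃ i < n, g i * s ∈ A} {s | g n * s ∈ A} := by
        rw [Set.disjoint_left]
        rintro s ⟨i, hi, hs⟩ hs'
        have := hdisj s i n hs hs'
        omega
      have h3 : {s | g n * s ∈ A} = (fun x => (g n)⁻¹ * x) '' A := by
        ext s
        constructor
        · intro hs
          exact ⟨g n * s, hs, by simp⟩
        · rintro ⟨x, hx, rfl⟩
          show g n * ((g n)⁻¹ * x) ∈ A
          rwa [mul_inv_cancel_left]
      rw [h1, hadd _ _ h2, ih, h3, hinv]
      push_cast; ring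
  have hle : ∀ B : Set G, μ B ≤ 1 := by
    intro B
    have h1 := hadd B Bᶜ disjoint_compl_right
    rw [Set.union_compl_self, hone] at h1
    linarith [hpos Bᶜ]
  by_contra h
  have hpos' : 0 < μ A := lt_of_le_of_ne (hpos A) (Ne.symm h)
  obtain ⟨n, hn⟩ := exists_nat_gt (1 / μ A)
  have h1 := hle {s | ∃ i < n, g i * s ∈ A}
  rw [key n] at h1
  rw [div_lt_iff₀ hpos'] at hn
  linarith

/-- Upper unipotent matrices. -/
def up (c : ℤ) : Matrix.SpecialLinearGroup (Fin 2) ℤ := ⟨!![1, c; 0, 1], by simp⟩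

/-- Lower unipotent matrices. -/
def lo (c : ℤ) : Matrix.SpecialLinearGroup (Fin 2) ℤ := ⟨!![1, 0; c, 1], by simp⟩

/-- The first column of the matrix part. -/
def col (s : G) (i : Fin 2) : ℤ := s.1.1 i 0

theorem col_up (c : ℤ) (s : G) : col ((up c, 1) * s) 0 = col s 0 + c * col s 1 ∧
    col ((up c, 1) * s) 1 = col s 1 := by
  unfold col up
  constructor
  · simp [Matrix.mul_apply, Fin.sum_univ_two]
  · simp [Matrix.mul_apply, Fin.sum_univ_two]

theorem col_lo (c : ℤ) (s : G) : col ((lo c, 1) * s) 0 = col s 0 ∧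
    col ((lo c, 1) * s) 1 = c * col s 0 + col s 1 := by
  unfold col lo
  constructor
  · simp [Matrix.mul_apply, Fin.sum_univ_two]
  · simp [Matrix.mul_apply, Fin.sum_univ_two]

theorem col_ne (s : G) : ¬ (col s 0 = 0 ∧ col s 1 = 0) := by
  rintro ⟨h0, h1⟩
  unfold col at h0 h1
  have hdet := s.1.2
  rw [Matrix.det_fin_two, h0, h1] at hdet
  simp at hdet

theorem abs_helper {a b : ℤ} {i j : ℕ} (hb : b ≠ 0) (h1 : |a + 4 * (i : ℤ) * b| ≤ |b|)
    (h2 : |a + 4 * (j : ℤ) * b| ≤ |b|) : i = j := by
  by_contra h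
  have h3 : |4 * ((i : ℤ) - j) * b| ≤ 2 * |b| := by
    have e : 4 * ((i : ℤ) - j) * b = (a + 4 * (i : ℤ) * b) - (a + 4 * (j : ℤ) * b) := by ring
    rw [e]
    calc _ ≤ |a + 4 * (i : ℤ) * b| + |a + 4 * (j : ℤ) * b| := abs_sub _ _
      _ ≤ |b| + |b| := by gcongr
      _ = 2 * |b| := by ring
  have h4 : 1 ≤ |(i : ℤ) - j| := by
    apply Int.one_le_abs
    intro h5
    exact h (by exact_mod_cast sub_eq_zero.1 h5)
  have h5 : 0 < |b| := abs_pos.2 hb
  rw [abs_mul, abs_mul, abs_of_pos (by norm_num : (0 : ℤ) < 4)] at h3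
  nlinarith [mul_le_mul_of_nonneg_right h4 h5.le]

theorem not_amenable : ¬ IsAmenable G := by
  rintro ⟨μ, hpos, hone, hadd, hinv⟩
  have hV : μ {s | |col s 0| ≤ |col s 1|} = 0 := by
    refine null hpos hone hadd hinv _ (fun i => (up (4 * (i : ℤ)), 1)) ?_
    intro s i j hi hj
    simp only [Set.mem_ofPred_eq] at hi hj
    rw [(col_up _ _).1, (col_up _ _).2] at hi hj
    refine abs_helper (a := col s 0) (b := col s 1) ?_ hi hj
    intro h0
    rw [h0] at hi
    simp only [mul_zero, add_zero, abs_zero, abs_nonpos_iff] at hi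
    exact col_ne s ⟨hi, h0⟩
  have hU : μ {s | |col s 1| < |col s 0|} = 0 := by
    refine null hpos hone hadd hinv _ (fun i => (lo (4 * (i : ℤ)), 1)) ?_
    intro s i j hi hj
    simp only [Set.mem_ofPred_eq] at hi hj
    rw [(col_lo _ _).1, (col_lo _ _).2, add_comm] at hi hj
    refine abs_helper (a := col s 1) (b := col s 0) ?_ hi.le hj.le
    intro h0
    rw [h0, abs_zero] at hi
    exact absurd hi (not_lt.2 (abs_nonneg _))
  have h1 : {s : G | |col s 0| ≤ |col s 1|} ∪ {s | |col s 1| < |col s 0|} = Set.univ := by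
    ext s
    simp only [Set.mem_union, Set.mem_ofPred_eq, Set.mem_univ, iff_true]
    exact le_or_gt _ _
  have h2 : Disjoint {s : G | |col s 0| ≤ |col s 1|} {s | |col s 1| < |col s 0|} := by
    rw [Set.disjoint_left]
    intro s hs hs'
    simp only [Set.mem_ofPred_eq] at hs hs'
    exact absurd hs' (not_lt.2 hs)
  have h3 := hadd _ _ h2
  rw [h1, hone, hV, hU] at h3
  norm_num at h3

end NonAmenable

theorem result : ∃ (G : Type) (_ : Group G), Countable G ∧ ¬ IsAmenable G ∧
    ∃ T : Op G, CommutesWithRightTranslations T ∧ ¬ IsRegular T := by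
  refine ⟨G, inferInstance, ?_, not_amenable, T, commutes_T, not_regular⟩
  have h1 : Countable (Matrix (Fin 2) (Fin 2) ℤ) := by
    unfold Matrix
    infer_instance
  have h2 : Countable (Matrix.SpecialLinearGroup (Fin 2) ℤ) :=
    Function.Injective.countable (f := fun A => A.1) Subtype.val_injective
  have h3 : Countable H := inferInstanceAs (Countable (ℕ →₀ ZMod 2))
  infer_instance

end Pool.Agent.Results.MP_b39683_an.NonAmenableNonRegular
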